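import Pool.Agent.Lib.MP_79d702_lc.U2.Final
import Pool.Agent.Lib.MP_79d702_lc.U2.CircB
import Pool.Agent.Lib.MP_79d702_lc.U2.Hard
import Pool.Agent.Lib.MP_79d702_lc.U2.Crt.All

/-!
One language in P whose slices need `(5.01 - o(1)) n` AND / OR gates, NOT gates being free.
-/

namespace Pool.Agent.Results.MP_79d702_lc.FiveOhOne

open Pool.Agent.Lib.MP_79d702_lc

theorem result : ∃ L ∈ N68a2faeb.P, L ∈ N68a2faeb.NP ∧ ∀ c : ℝ, c < 5.01 →
    ∀ᶠ n : ℕ in Filter.atTop, ∀ C : Neg.Circuit n, C.Decides L → c * n ≤ C.size :=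
  U2.final (U2.bound_of_core U2.Crt.core) U2.exists_hard

end Pool.Agent.Results.MP_79d702_lc.FiveOhOne
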