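import Pool.Agent.Lib.MP_79d702_lc.Avg.Final

/-!
A correlation bound under the uniform distribution: one language `L` in NP and a constant `c` such
that, for all `n` and `w`, the function `x ↦ L (1^w 0 x)` on `n` bits is monotone and every circuit
with `s` AND / OR gates and `t` NOT gates agrees with it on at most a fraction
`1 / 2 + c * 2 ^ t * (w ^ 2 * (log n + 1) / sqrt n + s / 2 ^ w)` of the cube.
-/

namespace Pool.Agent.Results.MP_79d702_lc.MonotoneAverage

open Pool.Agent.Lib.MP_79d702_lc.Neg Pool.Agent.Lib.MP_79d702_lc.Avg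

theorem result : ∃ L ∈ N68a2faeb.NP, ∃ c : ℝ, ∀ n w : ℕ, 1 ≤ n → 1 ≤ w →
    Monotone (fun x : Fin n → Bool => L (List.replicate w true ++ false :: List.ofFn x)) ∧
    ∀ C : Circuit n,
      ((Finset.univ.filter fun x : Fin n → Bool =>
        C.eval x = L (List.replicate w true ++ false :: List.ofFn x)).card : ℝ) / 2 ^ n ≤
        1 / 2 + c * 2 ^ C.nots *
          ((w : ℝ) ^ 2 * ((Nat.log 2 n : ℝ) + 1) / Real.sqrt n + (C.size : ℝ) / 2 ^ w) :=
  ⟨langA, langA_np, 6000000000, fun n w hn hw => ⟨langA_mono n w, final_avg hn hw⟩⟩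

end Pool.Agent.Results.MP_79d702_lc.MonotoneAverage
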