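import Pool.Agent.Lib.MP_79d702_lc.Tar.Final

/-!
One language in P with monotone slices and a constant `c`: a circuit with `t` NOT gates and `s`
AND / OR gates that decides it on `n` inputs has `2 ^ w ≤ 2 ^ (t + 6) * (s + 1)` as soon as
`c * 2 ^ t * w * (log w + 1) ^ c ≤ n`.
-/

namespace Pool.Agent.Results.MP_79d702_lc.MonotoneNearExp

open Pool.Agent.Lib.MP_79d702_lc.Neg Pool.Agent.Lib.MP_79d702_lc.Tar

theorem result : ∃ L ∈ N68a2faeb.P, L ∈ N68a2faeb.NP ∧ MonotoneSlices L ∧ ∃ c : ℕ,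
    ∀ (n w : ℕ) (C : Circuit n), C.Decides L → 1 ≤ w →
      c * 2 ^ C.nots * w * (Nat.log 2 w + 1) ^ c ≤ n →
      2 ^ w ≤ 2 ^ (C.nots + 6) * (C.size + 1) :=
  ⟨lang, lang_P, lang_NP, lang_mono, final_boundP⟩

end Pool.Agent.Results.MP_79d702_lc.MonotoneNearExp
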