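import Pool.Agent.Lib.MP_79d702_lc.NBP.Core
import Pool.Agent.Lib.MP_79d702_lc.NBP.Rect
import Pool.Agent.Lib.MP_79d702_lc.NBP.Reduce
import Pool.Agent.Lib.MP_79d702_lc.NBP.Final

/-!
A language in P such that every nondeterministic Boolean branching program that decides it on
`n` inputs and accepts each accepted input along some walk with at most `(1 + ε) n` tests has at
least `2 ^ (ε n)` nodes.
-/

namespace Pool.Agent.Results.MP_79d702_lc.NondetBP

open Pool.Agent.Lib.MP_79d702_lc.NBP

theorem result : ∃ L ∈ N68a2faeb.P, ∃ ε : ℝ, 0 < ε ∧ ∃ n₀ : ℕ, ∀ n ≥ n₀, ∀ B : Program n,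
    B.DecidesWithin (fun x => L (List.ofFn x)) ((1 + ε) * n) → (2 : ℝ) ^ (ε * n) ≤ B.size :=
  final_of core (fun B f e r hr hB s A _ h0 h1 => reduce B f e r hr hB s A h0 h1) lang k0
    lang_P lang_sens lang_count k0_le lang_norect

end Pool.Agent.Results.MP_79d702_lc.NondetBP
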